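import Mathlib

/-! Over a three-letter alphabet, equal E-pattern languages need not have blockwise equal
languages. -/

namespace Pool.Agent.Results.MP_c27bb7_lc.No

/-- Words over variables (`inl`) and the three terminal letters (`inr`). -/
abbrev Pat : Type := List (ℕ ⊕ Fin 3)

/-- The substitution determined by the images `σ x` (possibly empty) of the variables. -/
def subst (σ : ℕ → List (Fin 3)) (α : Pat) : List (Fin 3) := α.flatMap (Sum.elim σ fun a => [a])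

/-- The E-pattern language. -/
def lang (α : Pat) : Set (List (Fin 3)) := {w | ∃ σ, w = subst σ α}

/-- A word of variables as a pattern. -/
def var (α : List ℕ) : Pat := α.map Sum.inl

/-- `α = α₀ u₁ α₁ ⋯ u_m α_m` and `β = β₀ u₁ β₁ ⋯ u_m β_m`, where `l` lists the triples
`(u_i, α_i, β_i)`, all `u_i` are nonempty and `α_i, β_i` are nonempty for `1 ≤ i < m`. -/
def Decomp (α β : Pat) (α₀ β₀ : List ℕ) (l : List (List (Fin 3) × List ℕ × List ℕ)) : Prop :=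
  α = var α₀ ++ l.flatMap (fun t => t.1.map Sum.inr ++ var t.2.1) ∧
    β = var β₀ ++ l.flatMap (fun t => t.1.map Sum.inr ++ var t.2.2) ∧
      (∀ t ∈ l, t.1 ≠ []) ∧ ∀ t ∈ l.dropLast, t.2.1 ≠ [] ∧ t.2.2 ≠ []

open List

def InA (w : List (Fin 3)) : Prop := ∃ x y : List (Fin 3), w = y ++ x ++ y ++ x ++ y

theorem inA_nil : InA [] := ⟨[], [], rfl⟩

theorem inA_rep {k : ℕ} (h : k ≠ 1) : InA (replicate k 2) := by
  obtain ⟨i, j, rfl⟩ : ∃ i j, k = j + i + j + i + j :=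
    ⟨if k % 2 = 0 then k / 2 else (k - 3) / 2, k % 2, by split_ifs <;> omega⟩
  exact ⟨replicate i 2, replicate j 2, by simp only [replicate_add]⟩

theorem shape (z : List (Fin 3)) : (∃ k, z = replicate k 2) ∨
    (∃ k u, z = replicate k 2 ++ 1 :: u) ∨ (∃ k u, z = u ++ 0 :: replicate k 2) ∨
      ∃ k u v, z = u ++ 0 :: (replicate k 2 ++ 1 :: v) := by
  induction z with
  | nil => exact .inl ⟨0, rfl⟩
  | cons h t ih =>
    rcases ih with ⟨k, rfl⟩ | ⟨k, u, rfl⟩ | ⟨k, u, rfl⟩ | ⟨k, u, v, rfl⟩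
    · fin_cases h
      exacts [.inr (.inr (.inl ⟨k, [], rfl⟩)), .inr (.inl ⟨0, _, rfl⟩), .inl ⟨k + 1, rfl⟩]
    · fin_cases h
      exacts [.inr (.inr (.inr ⟨k, [], u, rfl⟩)), .inr (.inl ⟨0, _, rfl⟩),
        .inr (.inl ⟨k + 1, u, rfl⟩)]
    · exact .inr (.inr (.inl ⟨k, h :: u, rfl⟩))
    · exact .inr (.inr (.inr ⟨k, h :: u, v, rfl⟩))

theorem cube (z : List (Fin 3)) : (∃ k, z = replicate k 2) ∨
    (∃ B r, InA B ∧ z ++ z ++ z = B ++ 1 :: r) ∨ (∃ A r, InA A ∧ z ++ z ++ z = r ++ 0 :: A) ∨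
      ∃ A r s, InA A ∧ z ++ z ++ z = r ++ 0 :: (A ++ 1 :: s) := by
  rcases shape z with h | ⟨k, u, h⟩ | ⟨k, u, h⟩ | ⟨k, u, v, h⟩
  · exact .inl h
  · refine .inr (.inl ?_)
    rcases eq_or_ne k 1 with rfl | hk
    · exact ⟨_, u, ⟨1 :: u, [2], rfl⟩, by simp [h]⟩
    · exact ⟨_, u ++ z ++ z, inA_rep hk, by nth_rw 1 [h]; simp⟩
  · refine .inr (.inr (.inl ?_))
    rcases eq_or_ne k 1 with rfl | hk
    · exact ⟨_, u, ⟨u ++ [0], [2], rfl⟩, by simp [h]⟩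
    · exact ⟨_, z ++ z ++ u, inA_rep hk, by nth_rw 3 [h]; simp⟩
  · refine .inr (.inr (.inr ?_))
    rcases eq_or_ne k 1 with rfl | hk
    · exact ⟨_, u, v, ⟨1 :: (v ++ u ++ [0]), [2], rfl⟩, by simp [h]⟩
    · exact ⟨_, u, v ++ z ++ z, inA_rep hk, by nth_rw 1 [h]; simp⟩

def a1 : List ℕ := [1, 2, 1, 2, 1, 3, 3, 3, 5, 6, 5, 6, 5]
def b1 : List ℕ := [1, 2, 1, 2, 1, 3, 3, 3, 4, 4, 4, 5, 6, 5, 6, 5]
def wrap (l : List ℕ) : Pat := var [0] ++ .inr 0 :: (var l ++ .inr 1 :: var [7])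

theorem mem_a {p s A g B : List (Fin 3)} (hA : InA A) (hB : InA B) {w : List (Fin 3)}
    (h : w = p ++ 0 :: (A ++ (g ++ g ++ g) ++ B ++ 1 :: s)) : w ∈ lang (wrap a1) := by
  obtain ⟨x, y, rfl⟩ := hA
  obtain ⟨u, v, rfl⟩ := hB
  exact ⟨fun i => [p, y, x, g, [], v, u, s].getD i [], by simp [h, subst, wrap, var, a1]⟩

theorem lang_eq : lang (wrap a1) = lang (wrap b1) := by
  refine Set.ext fun w => ⟨?_, ?_⟩ <;> rintro ⟨σ, rfl⟩
  · exact ⟨fun i => if i = 4 then [] else σ i, by simp [subst, wrap, var, a1, b1]⟩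
  have hA : InA (σ 1 ++ σ 2 ++ σ 1 ++ σ 2 ++ σ 1) := ⟨_, _, rfl⟩
  have hB : InA (σ 5 ++ σ 6 ++ σ 5 ++ σ 6 ++ σ 5) := ⟨_, _, rfl⟩
  have h : subst σ (wrap b1) = σ 0 ++ 0 :: ((σ 1 ++ σ 2 ++ σ 1 ++ σ 2 ++ σ 1) ++
      (σ 3 ++ σ 3 ++ σ 3) ++ (σ 4 ++ σ 4 ++ σ 4) ++ (σ 5 ++ σ 6 ++ σ 5 ++ σ 6 ++ σ 5) ++
        1 :: σ 7) := by simp [subst, wrap, var, b1]
  rw [h]
  generalize σ 1 ++ σ 2 ++ σ 1 ++ σ 2 ++ σ 1 = A at hA
  generalize σ 5 ++ σ 6 ++ σ 5 ++ σ 6 ++ σ 5 = B at hB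
  generalize σ 0 = p, σ 7 = s, σ 3 = g, σ 4 = z
  rcases cube z with ⟨k, rfl⟩ | ⟨C, r, h1, h2⟩ | ⟨C, r, h1, h2⟩ | ⟨C, r, t, h1, h2⟩
  · generalize hz : replicate k (2 : Fin 3) = z
    rcases cube g with ⟨j, rfl⟩ | ⟨C, r, h1, h2⟩ | ⟨C, r, h1, h2⟩ | ⟨C, r, t, h1, h2⟩
    · refine mem_a (p := p) (s := s) (g := replicate (j + k) 2) hA hB ?_
      simp only [← hz, append_assoc, ← append_assoc (replicate _ _) (replicate _ _),
        ← replicate_add]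
      congr 5
      omega
    · exact mem_a (p := p) (g := []) (s := r ++ (z ++ z ++ z) ++ B ++ 1 :: s) hA h1 (by simp [h2])
    · exact mem_a (p := p ++ 0 :: (A ++ r)) (g := z) (s := s) h1 hB (by simp [h2])
    · exact mem_a (p := p ++ 0 :: (A ++ r)) (g := []) (s := t ++ (z ++ z ++ z) ++ B ++ 1 :: s) h1
        inA_nil (by simp [h2])
  · exact mem_a (p := p) (g := g) (s := r ++ B ++ 1 :: s) hA h1 (by rw [h2]; simp)
  · exact mem_a (p := p ++ 0 :: (A ++ (g ++ g ++ g) ++ r)) (g := []) (s := s) h1 hB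
      (by rw [h2]; simp)
  · exact mem_a (p := p ++ 0 :: (A ++ (g ++ g ++ g) ++ r)) (g := []) (s := t ++ B ++ 1 :: s) h1
      inA_nil (by rw [h2]; simp)

theorem lang_ne : lang (var a1) ≠ lang (var b1) := by
  intro h
  obtain ⟨σ, hσ⟩ : [0, 0, 1, 1, 1, 2, 2, 2, 0, 0] ∈ lang (var a1) :=
    h ▸ ⟨fun i => [[], [], [0], [1], [2], [], [0]].getD i [], by simp [subst, var, b1]⟩
  simp only [subst, var, a1, map_cons, map_nil, flatMap_cons, flatMap_nil, Sum.elim_inl] at hσ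
  generalize σ 1 = y, σ 2 = x, σ 3 = g, σ 5 = v, σ 6 = u at hσ
  have h1 := congrArg length hσ
  simp only [length_append, length_cons, length_nil] at h1
  rcases y with _ | ⟨_, _ | ⟨_, _ | ⟨_, _ | _⟩⟩⟩ <;>
  rcases x with _ | ⟨_, _ | ⟨_, _ | ⟨_, _ | ⟨_, _ | ⟨_, _ | _⟩⟩⟩⟩⟩ <;>
  simp only [length_cons, length_nil] at h1 <;> (try omega) <;>
  simp only [nil_append, cons_append, cons.injEq] at hσ <;> (try omega) <;>
  rcases g with _ | ⟨_, _ | ⟨_, _ | ⟨_, _ | _⟩⟩⟩ <;>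
  simp only [length_cons, length_nil] at h1 <;> (try omega) <;>
  simp only [nil_append, cons_append, cons.injEq] at hσ <;> (try omega) <;>
  rcases v with _ | ⟨_, _ | ⟨_, _ | ⟨_, _ | _⟩⟩⟩ <;>
  rcases u with _ | ⟨_, _ | ⟨_, _ | ⟨_, _ | ⟨_, _ | ⟨_, _ | _⟩⟩⟩⟩⟩ <;>
  simp only [length_cons, length_nil] at h1 <;> (try omega) <;>
  simp only [nil_append, cons_append, cons.injEq] at hσ <;> omega

theorem cut : ∀ {p q : List ℕ} {a b : Fin 3} {r s : Pat},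
    var p ++ .inr a :: r = var q ++ .inr b :: s → p = q ∧ r = s
  | [], [], _, _, _, _, h => ⟨rfl, (cons.inj h).2⟩
  | [], _ :: _, _, _, _, _, h => by simp [var] at h
  | _ :: _, [], _, _, _, _, h => by simp [var] at h
  | _ :: _, _ :: _, _, _, _, _, h => by
    simp only [var, map_cons, cons_append, cons.injEq, Sum.inl.injEq] at h
    exact ⟨congrArg₂ _ h.1 (cut h.2).1, (cut h.2).2⟩

theorem parse {c : List ℕ} (hc : c ≠ []) {α₀ : List ℕ} {l : List (List (Fin 3) × List ℕ × List ℕ)}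
    {f : List (Fin 3) × List ℕ × List ℕ → List ℕ} (hl : ∀ t ∈ l, t.1 ≠ [])
    (h : wrap c = var α₀ ++ l.flatMap fun t => t.1.map Sum.inr ++ var (f t)) :
    ∃ t l', l = t :: l' ∧ f t = c := by
  have h0 : ∀ {p q : List ℕ} {a r}, var p ++ .inr a :: r ≠ var q := fun {p q a r} h => by
    have : Sum.inr a ∈ var q := by simp [← h]
    simp [var] at this
  rcases l with _ | ⟨t, l⟩
  · exact absurd (h.trans (append_nil _)) h0
  refine ⟨t, l, rfl, ?_⟩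
  obtain ⟨a, u, hu⟩ := exists_cons_of_ne_nil (hl t (by simp))
  simp only [flatMap_cons, hu, map_cons, cons_append] at h
  have h1 := (cut h).2
  rcases u with _ | ⟨b, u⟩
  · rcases l with _ | ⟨t', l⟩
    · exact absurd (by simpa using h1) h0
    · obtain ⟨a, u, hu⟩ := exists_cons_of_ne_nil (hl t' (by simp))
      simp only [flatMap_cons, hu, map_cons, cons_append, map_nil, nil_append] at h1
      exact (cut h1).1.symm
  · obtain ⟨d, c, rfl⟩ := exists_cons_of_ne_nil hc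
    simp [var] at h1

/-- Two patterns with the same E-pattern language such that every decomposition witnessing
similarity has a pair of corresponding variable blocks with different languages. -/
theorem result : ∃ α β : Pat, α ≠ [] ∧ β ≠ [] ∧ lang α = lang β ∧ ∀ α₀ β₀ l, Decomp α β α₀ β₀ l →
    lang (var α₀) ≠ lang (var β₀) ∨ ∃ t ∈ l, lang (var t.2.1) ≠ lang (var t.2.2) := by
  refine ⟨wrap a1, wrap b1, by simp [wrap], by simp [wrap], lang_eq, fun α₀ β₀ l h => .inr ?_⟩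
  obtain ⟨t, l', rfl, h1⟩ := parse (by simp [a1]) h.2.2.1 h.1
  obtain ⟨_, _, h2, h3⟩ := parse (by simp [b1]) h.2.2.1 h.2.1
  obtain ⟨rfl, -⟩ := cons.inj h2
  exact ⟨t, by simp, by rw [h1, h3]; exact lang_ne⟩

end Pool.Agent.Results.MP_c27bb7_lc.No
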